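import Pool.Agent.helper15.LC.Spec

/-!
# Row FAC (MP_7c3fb3_pr)
-/

set_option autoImplicit false

open Finset Filter Topology

namespace CO

open CU

section

variable {V : Type} [Fintype V] [DecidableEq V]

/-- glue a configuration on `R` and one off `R` -/
def FAC_glue (R : Finset V) (σ τ : V → Bool) : V → Bool := fun x => if x ∈ R then σ x else τ x

/-- The interaction inside `R` and the rest. -/
theorem FAC_HH (K : V → V → ℝ) (R : Finset V) (hK : ∀ x ∈ R, ∀ y, y ∉ R → K x y = 0 ∧ K y x = 0)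
    (σ : V → Bool) :
    CWM.HH K (fun _ => 0) σ = CWM.HH (fun x y => if x ∈ R ∧ y ∈ R then K x y else 0) (fun _ => 0) σ +
      CWM.HH (fun x y => if x ∉ R ∧ y ∉ R then K x y else 0) (fun _ => 0) σ := by
  unfold CWM.HH
  simp only [zero_mul, sum_const_zero, add_zero]
  rw [← sum_add_distrib]
  refine sum_congr rfl fun x _ => ?_
  rw [← sum_add_distrib]
  refine sum_congr rfl fun y _ => ?_
  by_cases hx : x ∈ R
  · by_cases hy : y ∈ R
    · simp [hx, hy]
    · simp [hx, hy, (hK x hx y hy).1]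
  · by_cases hy : y ∈ R
    · simp [hx, hy, (hK y hy x hx).2]
    · simp [hx, hy]

theorem FAC_in (K : V → V → ℝ) (R : Finset V) (σ τ : V → Bool) :
    CWM.HH (fun x y => if x ∈ R ∧ y ∈ R then K x y else 0) (fun _ => 0) (FAC_glue R σ τ) =
      CWM.HH (fun x y => if x ∈ R ∧ y ∈ R then K x y else 0) (fun _ => 0) σ := by
  unfold CWM.HH
  simp only [zero_mul, sum_const_zero, add_zero]
  refine sum_congr rfl fun x _ => sum_congr rfl fun y _ => ?_
  by_cases h : x ∈ R ∧ y ∈ R
  · simp [FAC_glue, h.1, h.2]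
  · simp [h]

theorem FAC_out (K : V → V → ℝ) (R : Finset V) (σ τ : V → Bool) :
    CWM.HH (fun x y => if x ∉ R ∧ y ∉ R then K x y else 0) (fun _ => 0) (FAC_glue R σ τ) =
      CWM.HH (fun x y => if x ∉ R ∧ y ∉ R then K x y else 0) (fun _ => 0) τ := by
  unfold CWM.HH
  simp only [zero_mul, sum_const_zero, add_zero]
  refine sum_congr rfl fun x _ => sum_congr rfl fun y _ => ?_
  by_cases h : x ∉ R ∧ y ∉ R
  · simp [FAC_glue, h.1, h.2]
  · simp [h]

/-- For functions `u` of the spins in `R` and `v` of the spins off `R`: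
`∑ u v * ∑ 1 * 1 = ∑ u * ∑ v`. -/
theorem FAC_prod (R : Finset V) (u v : (V → Bool) → ℝ)
    (hu : ∀ σ τ, u (FAC_glue R σ τ) = u σ) (hv : ∀ σ τ, v (FAC_glue R σ τ) = v τ) :
    (∑ σ : V → Bool, u σ * v σ) * (Fintype.card (V → Bool) : ℝ) =
      (∑ σ : V → Bool, u σ) * ∑ σ : V → Bool, v σ := by
  -- the involution (σ, τ) ↦ (glue σ τ, glue τ σ)
  let e : (V → Bool) × (V → Bool) ≃ (V → Bool) × (V → Bool) :=
    { toFun := fun p => (FAC_glue R p.1 p.2, FAC_glue R p.2 p.1)
      invFun := fun p => (FAC_glue R p.1 p.2, FAC_glue R p.2 p.1)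
      left_inv := fun p => by
        refine Prod.ext ?_ ?_ <;> funext x <;> by_cases h : x ∈ R <;> simp [FAC_glue, h]
      right_inv := fun p => by
        refine Prod.ext ?_ ?_ <;> funext x <;> by_cases h : x ∈ R <;> simp [FAC_glue, h] }
  have h1 : ∑ p : (V → Bool) × (V → Bool), u p.1 * v p.1 =
      ∑ p : (V → Bool) × (V → Bool), u p.1 * v p.2 := by
    rw [← Equiv.sum_comp e]
    refine sum_congr rfl fun p _ => ?_
    show u (FAC_glue R p.1 p.2) * v (FAC_glue R p.1 p.2) = _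
    rw [hu, hv]
  rw [Fintype.sum_prod_type, Fintype.sum_prod_type] at h1
  simp only [sum_const, card_univ, nsmul_eq_mul] at h1
  rw [sum_mul_sum, ← h1, sum_mul]
  refine sum_congr rfl fun σ _ => ?_
  rw [mul_comm]

theorem FAC : FAC_stmt := by
  intro V _ _ K R f hK hf
  have hfg : ∀ σ τ : V → Bool, f (FAC_glue R σ τ) = f σ := by
    intro σ τ
    refine hf _ _ fun x hx => ?_
    simp [FAC_glue, hx]
  set KR : V → V → ℝ := fun x y => if x ∈ R ∧ y ∈ R then K x y else 0 with hKR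
  set KO : V → V → ℝ := fun x y => if x ∉ R ∧ y ∉ R then K x y else 0 with hKO
  have e1 : ∀ σ, Real.exp (CWM.HH K (fun _ => 0) σ) =
      Real.exp (CWM.HH KR (fun _ => 0) σ) * Real.exp (CWM.HH KO (fun _ => 0) σ) := by
    intro σ
    rw [FAC_HH K R hK σ, Real.exp_add]
  have hN : (0 : ℝ) < (Fintype.card (V → Bool) : ℝ) := by exact_mod_cast Fintype.card_pos
  have hO : 0 < ∑ σ : V → Bool, Real.exp (CWM.HH KO (fun _ => 0) σ) :=
    sum_pos (fun _ _ => Real.exp_pos _) univ_nonempty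
  have hR : 0 < ∑ σ : V → Bool, Real.exp (CWM.HH KR (fun _ => 0) σ) :=
    sum_pos (fun _ _ => Real.exp_pos _) univ_nonempty
  have p1 := FAC_prod R (fun σ => Real.exp (CWM.HH KR (fun _ => 0) σ) * f σ)
    (fun σ => Real.exp (CWM.HH KO (fun _ => 0) σ))
    (fun σ τ => by show Real.exp (CWM.HH KR (fun _ => 0) (FAC_glue R σ τ)) * _ = _
                   rw [hKR, FAC_in, hfg])
    (fun σ τ => by show Real.exp (CWM.HH KO (fun _ => 0) (FAC_glue R σ τ)) = _
                   rw [hKO, FAC_out])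
  have p2 := FAC_prod R (fun σ => Real.exp (CWM.HH KR (fun _ => 0) σ))
    (fun σ => Real.exp (CWM.HH KO (fun _ => 0) σ))
    (fun σ τ => by show Real.exp (CWM.HH KR (fun _ => 0) (FAC_glue R σ τ)) = _
                   rw [hKR, FAC_in])
    (fun σ τ => by show Real.exp (CWM.HH KO (fun _ => 0) (FAC_glue R σ τ)) = _
                   rw [hKO, FAC_out])
  have q1 : ∑ σ : V → Bool, Real.exp (CWM.HH K (fun _ => 0) σ) * f σ =
      (∑ σ : V → Bool, Real.exp (CWM.HH KR (fun _ => 0) σ) * f σ) *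
        (∑ σ : V → Bool, Real.exp (CWM.HH KO (fun _ => 0) σ)) / (Fintype.card (V → Bool) : ℝ) := by
    rw [eq_div_iff hN.ne', ← p1]
    congr 1
    refine sum_congr rfl fun σ _ => ?_
    rw [e1]
    ring
  have q2 : ∑ σ : V → Bool, Real.exp (CWM.HH K (fun _ => 0) σ) =
      (∑ σ : V → Bool, Real.exp (CWM.HH KR (fun _ => 0) σ)) *
        (∑ σ : V → Bool, Real.exp (CWM.HH KO (fun _ => 0) σ)) / (Fintype.card (V → Bool) : ℝ) := by
    rw [eq_div_iff hN.ne', ← p2]
    congr 1
    exact sum_congr rfl fun σ _ => e1 σ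
  unfold ex
  rw [q1, q2]
  field_simp

end

end CO
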