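import Pool.Agent.helper15.LC.Spec

/-!
# Row PLB (MP_7c3fb3_pr)
-/

set_option autoImplicit false

open Finset Filter Topology

namespace CO

open CU

theorem PLB_box {d n : ℕ} [NeZero n] (M r : ℕ) (x : Site d n) (hx : x ∈ Box r (0 : Site d n)) :
    Box M (0 : Site d n) ⊆ Box (M + r) x := by
  intro y hy
  unfold Box at hx hy ⊢
  rw [mem_filter] at hx hy ⊢
  refine ⟨mem_univ _, fun k => ?_⟩
  have h1 := hx.2 k
  have h2 := hy.2 k
  simp only [Pi.zero_apply, sub_zero] at h1 h2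
  have h3 : y k - x k = y k + (-x k) := sub_eq_add_neg _ _
  rw [h3]
  have h4 := ZMod.natAbs_valMinAbs_add_le (y k) (-x k)
  have h5 : (-x k).valMinAbs.natAbs = (x k).valMinAbs.natAbs := ZMod.natAbs_valMinAbs_neg (x k)
  have h6 : ((y k).valMinAbs + (-x k).valMinAbs).natAbs ≤
      (y k).valMinAbs.natAbs + (-x k).valMinAbs.natAbs := Int.natAbs_add_le _ _
  omega

theorem PLB (hGKW : GKW_stmt) (hEXT : EXT_stmt) (hBXP : BXP_stmt) (hMSP : MSP_stmt)
    (hVF : CU.VF_stmt) : PLB_stmt := by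
  intro d M r n b hb hn x hx
  have hsub : univ \ Box (M + r) x ⊆ univ \ Box M (0 : Site d (n + 3)) :=
    sdiff_subset_sdiff le_rfl (PLB_box M r x hx)
  have hK : ∀ y z : Site d (n + 3), 0 ≤ KT b (fun _ => 0) y z := by
    intro y z
    unfold KT
    have h1 : 0 ≤ ∑ i : Fin d, if z = y + ev i then (1 : ℝ) else 0 :=
      sum_nonneg fun i _ => by split_ifs <;> norm_num
    have := mul_nonneg hb h1
    linarith
  have h1 := (hGKW (Site d (n + 3)) (KT b fun _ => 0) (KT b fun _ => 0) (fun _ => 0) (fun _ => 0)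
    hK (fun _ => le_rfl) (fun _ _ => le_rfl) (fun _ => le_rfl) _ _ hsub x x).1
  refine le_trans ?_ h1
  rw [← (hEXT d (n + 3) b).2.1, (hBXP d (n + 3) (M + r) (by omega) b x x).1,
    hVF d b (M + r) n hn]
  exact ((hMSP d).1 b (M + r) hb).2.1

end CO
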