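import Pool.Agent.helper15.LC.Spec

/-!
# Row WIB (MP_7c3fb3_pr)
-/

set_option autoImplicit false

open Finset Filter Topology

namespace CO

open CU

theorem WIB_plpos {V : Type} [Fintype V] [DecidableEq V] (K : V → V → ℝ) (g : V → ℝ)
    (A : Finset V) : 0 < ∑ σ ∈ pl A, Real.exp (CWM.HH K g σ) := by
  refine sum_pos (fun _ _ => Real.exp_pos _) ⟨fun _ => true, ?_⟩
  unfold pl
  rw [mem_filter]
  exact ⟨mem_univ _, fun _ _ => rfl⟩

theorem WIB_exA {V : Type} [Fintype V] [DecidableEq V] (K : V → V → ℝ) (g : V → ℝ)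
    (A : Finset V) (f : (V → Bool) → ℝ) :
    ∑ σ : V → Bool, (if σ ∈ pl A then Real.exp (CWM.HH K g σ) else 0) * f σ =
      exA K g A f * ∑ σ ∈ pl A, Real.exp (CWM.HH K g σ) := by
  unfold exA
  rw [div_mul_cancel₀ _ (WIB_plpos K g A).ne']
  have h1 : ∀ σ : V → Bool, (if σ ∈ pl A then Real.exp (CWM.HH K g σ) else 0) * f σ =
      if σ ∈ pl A then Real.exp (CWM.HH K g σ) * f σ else 0 := by
    intro σ
    split_ifs
    · rfl
    · rw [zero_mul]
  rw [sum_congr rfl fun σ _ => h1 σ, ← sum_filter]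
  refine sum_congr ?_ fun _ _ => rfl
  ext σ
  simp

theorem WIB_exApos {V : Type} [Fintype V] [DecidableEq V] (K : V → V → ℝ) (g : V → ℝ)
    (A : Finset V) (f : (V → Bool) → ℝ) (hf : ∀ σ, 0 < f σ) : 0 < exA K g A f := by
  unfold exA
  refine div_pos ?_ (WIB_plpos K g A)
  refine sum_pos (fun σ _ => mul_pos (Real.exp_pos _) (hf σ)) ⟨fun _ => true, ?_⟩
  unfold pl
  rw [mem_filter]
  exact ⟨mem_univ _, fun _ _ => rfl⟩

theorem WIB_sg (b : Bool) : |sg b| ≤ 1 := by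
  cases b <;> simp [sg]

theorem WIB_mB {d n : ℕ} [NeZero n] (r : ℕ) (σ : Conf d n) : |mB r σ| ≤ 1 := by
  unfold mB
  rw [abs_div, Nat.abs_cast]
  refine div_le_one_of_le₀ ?_ (Nat.cast_nonneg _)
  calc |∑ x ∈ Box r (0 : Site d n), sg (σ x)| ≤ ∑ x ∈ Box r (0 : Site d n), |sg (σ x)| :=
        abs_sum_le_sum_abs _ _
    _ ≤ ∑ x ∈ Box r (0 : Site d n), (1 : ℝ) := sum_le_sum fun x _ => WIB_sg _
    _ = _ := by rw [sum_const, nsmul_eq_mul, mul_one]

theorem WIB_w {d n : ℕ} [NeZero n] (r : ℕ) (a : ℝ) (σ : Conf d n) :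
    ∑ x, (if x ∈ Box r (0 : Site d n) then a / ((Box r (0 : Site d n)).card : ℝ) else 0) *
      sg (σ x) = a * mB r σ := by
  have h1 : ∀ x : Site d n, (if x ∈ Box r (0 : Site d n) then
      a / ((Box r (0 : Site d n)).card : ℝ) else 0) * sg (σ x) =
      if x ∈ Box r (0 : Site d n) then a / ((Box r (0 : Site d n)).card : ℝ) * sg (σ x) else 0 := by
    intro x
    split_ifs
    · rfl
    · rw [zero_mul]
  rw [sum_congr rfl fun x _ => h1 x, ← sum_filter]
  have h2 : (univ : Finset (Site d n)).filter (fun x => x ∈ Box r (0 : Site d n)) =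
      Box r (0 : Site d n) := by
    ext x
    simp
  rw [h2, ← mul_sum]
  unfold mB
  ring

theorem WIB_KT {d n : ℕ} [NeZero n] (b b' : ℝ) (hbb : b ≤ b') (x y : Site d n) :
    KT b (fun _ => 0) x y ≤ KT b' (fun _ => 0) x y := by
  unfold KT
  have h1 : 0 ≤ ∑ i : Fin d, if y = x + ev i then (1 : ℝ) else 0 :=
    sum_nonneg fun i _ => by split_ifs <;> norm_num
  have := mul_le_mul_of_nonneg_right hbb h1
  linarith

theorem WIB_KT0 {d n : ℕ} [NeZero n] (b : ℝ) (hb : 0 ≤ b) (x y : Site d n) :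
    0 ≤ KT b (fun _ => 0) x y := by
  unfold KT
  have h1 : 0 ≤ ∑ i : Fin d, if y = x + ev i then (1 : ℝ) else 0 :=
    sum_nonneg fun i _ => by split_ifs <;> norm_num
  have := mul_nonneg hb h1
  linarith

theorem WIB (hPRB : PRB_stmt) (hB1C : B1C_stmt) (hEXM : EXM_stmt) (hSEC : SEC_stmt)
    (hRTM : RTM_stmt) (hMSP : MSP_stmt) : WIB_stmt := by
  intro d b b₁ ε hd hb₁ hbb hms hε
  have hb : 0 < b := hb₁.trans_lt hbb
  obtain ⟨M1, M2, -, -⟩ := hMSP d
  have hmm : ms d b₁ ≤ ms d b := M2 b₁ b hb₁ hbb.le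
  have hm1 : ms d b ≤ 1 := ((M1 b 0 hb.le).2.1).trans (M1 b 0 hb.le).2.2
  obtain ⟨a, κ, ha, hκ, hP⟩ := hPRB (ms d b) (ms d b₁) ε hms hmm hm1 hε
  obtain ⟨r₁, hr₁⟩ := hB1C d b₁ a κ hd hb₁ ha hκ
  obtain ⟨r₂, hr₂⟩ := hEXM d b a κ hd hb.le ha hκ
  set r := max r₁ r₂ with hr
  obtain ⟨Ma, hMa⟩ := hr₁ r (le_max_left _ _)
  obtain ⟨Mb, hMb⟩ := hr₂ r (le_max_right _ _)
  obtain ⟨L, Mc, hMc⟩ := hSEC d r b b₁ κ hd hb hb₁ hbb.le (hms.trans_le hmm) hκ
  refine ⟨L, r, max Ma (max Mb Mc), ?_⟩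
  intro M hM
  have hM1 : Ma ≤ M := (le_max_left _ _).trans hM
  have hM2 : Mb ≤ M := ((le_max_left _ _).trans (le_max_right _ _)).trans hM
  have hM3 : Mc ≤ M := ((le_max_right _ _).trans (le_max_right _ _)).trans hM
  filter_upwards [hMa M hM1, hMb M hM2, hMc M hM3] with n h1 h2 h3
  set K : Site d (n + 3) → Site d (n + 3) → ℝ := KW b b₁ (Box L (0 : Site d (n + 3))) with hK
  set A : Finset (Site d (n + 3)) := univ \ Box M 0 with hA
  have hK1 : ∀ x y, KT b₁ (fun _ => 0) x y ≤ K x y := by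
    intro x y
    rw [hK]
    unfold KW
    split_ifs
    · exact WIB_KT b₁ b hbb.le x y
    · exact le_rfl
  have hK2 : ∀ x y, K x y ≤ KT b (fun _ => 0) x y := by
    intro x y
    rw [hK]
    unfold KW
    split_ifs
    · exact le_rfl
    · exact WIB_KT b₁ b hbb.le x y
  have hK0 : ∀ x y, 0 ≤ K x y := fun x y => (WIB_KT0 b₁ hb₁ x y).trans (hK1 x y)
  have h4 := h2 K hK0 hK2
  have h5 := hRTM (Site d (n + 3)) K (KT b₁ fun _ => 0)
    (fun x => if x ∈ Box r (0 : Site d (n + 3)) then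
      a / ((Box r (0 : Site d (n + 3))).card : ℝ) else 0) A
    (WIB_KT0 b₁ hb₁) hK1 (fun x => by
      show 0 ≤ (if x ∈ Box r (0 : Site d (n + 3)) then
        a / ((Box r (0 : Site d (n + 3))).card : ℝ) else 0)
      split_ifs
      · positivity
      · exact le_rfl)
  simp only [WIB_w] at h5
  have h6 : exA K (fun _ => 0) A (fun σ => Real.exp (-(a * mB r σ))) ≤
      2 * Real.exp (-a * (2 * ms d b₁ - κ)) * exA K (fun _ => 0) A
        (fun σ => Real.exp (a * mB r σ)) := by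
    have p1 : 0 < exA (KT b₁ fun _ => 0) (fun _ => 0) A (fun σ => Real.exp (a * mB r σ)) :=
      WIB_exApos _ _ _ _ fun _ => Real.exp_pos _
    have p2 : 0 < exA K (fun _ => 0) A (fun σ => Real.exp (a * mB r σ)) :=
      WIB_exApos _ _ _ _ fun _ => Real.exp_pos _
    have h7 := mul_le_mul_of_nonneg_right h1 p2.le
    have h8 := h5.trans h7
    have h9 : exA K (fun _ => 0) A (fun σ => Real.exp (-(a * mB r σ))) *
        exA (KT b₁ fun _ => 0) (fun _ => 0) A (fun σ => Real.exp (a * mB r σ)) ≤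
        (2 * Real.exp (-a * (2 * ms d b₁ - κ)) * exA K (fun _ => 0) A
          (fun σ => Real.exp (a * mB r σ))) *
        exA (KT b₁ fun _ => 0) (fun _ => 0) A (fun σ => Real.exp (a * mB r σ)) := by
      refine h8.trans (le_of_eq ?_)
      ring
    exact le_of_mul_le_mul_right h9 p1
  have hZ : 0 < ∑ σ ∈ pl A, Real.exp (CWM.HH K (fun _ => 0) σ) := WIB_plpos K _ A
  have hsum : ∑ σ : Conf d (n + 3), (if σ ∈ pl A then Real.exp (CWM.HH K (fun _ => 0) σ) else 0) =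
      ∑ σ ∈ pl A, Real.exp (CWM.HH K (fun _ => 0) σ) := by
    rw [← sum_filter]
    refine sum_congr ?_ fun _ _ => rfl
    ext σ
    simp
  have h10 := hP (Conf d (n + 3))
    (fun σ => if σ ∈ pl A then Real.exp (CWM.HH K (fun _ => 0) σ) else 0) (fun σ => mB r σ)
    (fun σ => by
      show 0 ≤ (if σ ∈ pl A then Real.exp (CWM.HH K (fun _ => 0) σ) else 0)
      split_ifs
      · exact (Real.exp_pos _).le
      · exact le_rfl)
    (by rw [hsum]; exact hZ) (fun σ => WIB_mB r σ)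
    (by
      rw [WIB_exA K (fun _ => 0) A (fun σ => mB r σ ^ 2), hsum]
      exact mul_le_mul_of_nonneg_right h3 hZ.le)
    (by
      rw [WIB_exA K (fun _ => 0) A (fun σ => Real.exp (a * mB r σ)), hsum]
      exact mul_le_mul_of_nonneg_right h4 hZ.le)
    (by
      rw [WIB_exA K (fun _ => 0) A (fun σ => Real.exp (-(a * mB r σ))),
        WIB_exA K (fun _ => 0) A (fun σ => Real.exp (a * mB r σ)), ← mul_assoc]
      exact mul_le_mul_of_nonneg_right h6 hZ.le)
  rw [WIB_exA K (fun _ => 0) A (fun σ => mB r σ), hsum] at h10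
  exact le_of_mul_le_mul_right h10 hZ

end CO
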